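import Pool.Agent.H.MP_7917db_co.A

namespace Pool.Agent.Results.MP_7917db_co.Bounds
open Pool.Agent.H.MP_7917db_co

theorem result (n k : ℕ) (hk : 1 ≤ k) (hkn : k < n) :
    Real.arccos (Real.sqrt k / n) ≤ rad n k ∧ rad n k ≤ Real.arccos
      (1 / Real.sqrt (((k - n % k) * (n / k) ^ 2 + n % k * (n / k + 1) ^ 2 : ℕ) : ℝ)) :=
  bounds hk hkn.le

end Pool.Agent.Results.MP_7917db_co.Bounds
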