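import Pool.Agent.H.MP_7917db_co.A

namespace Pool.Agent.Results.MP_7917db_co.Divisible
open Pool.Agent.H.MP_7917db_co

theorem result (n k : ℕ) (hk : 1 ≤ k) (hkn : k < n) (hdvd : k ∣ n) :
    rad n k = Real.arccos (Real.sqrt k / n) ∧ ∀ X : Finset (EuclideanSpace ℝ (Fin n)),
      (∀ x ∈ X, ‖x‖ = 1) → X.card ≤ n + k → (Covers X (rad n k) ↔
        ∃ f : X → Fin k, (∀ t, (Finset.univ.filter fun x => f x = t).card = n / k + 1) ∧
          ∀ x y : X, x ≠ y → inner ℝ x.1 y.1 = if f x = f y then -(k : ℝ) / n else 0) :=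
  divisible hk hkn.le hdvd

end Pool.Agent.Results.MP_7917db_co.Divisible
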